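import Pool.Agent.R721.CD.Char
import Pool.Agent.H977R3.CM.Aut

set_option autoImplicit false

open scoped BigOperators Classical
open Representation Pool.Agent.Helper884.IC Pool.Agent.R721.CD

noncomputable section

namespace Pool.Agent.R677.FV

lemma exists_sigma_aux (L : Type) [Field L] [Algebra ℚ L] (n : ℕ) [NeZero n]
    [IsCyclotomicExtension {n} ℚ L] (t : ℕ) (ht : t.Coprime n) :
    ∃ σ : ℂ ≃+* ℂ, ∀ z : ℂ, z ^ n = 1 → σ z = z ^ t := by
  have hζ : IsPrimitiveRoot (IsCyclotomicExtension.zeta n ℚ L) n :=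
    IsCyclotomicExtension.zeta_spec n ℚ L
  have halg : Algebra.IsAlgebraic ℚ L := by
    have := IsCyclotomicExtension.finiteDimensional {n} ℚ L
    infer_instance
  let j : L →+* ℂ := ((IsAlgClosed.lift : L →ₐ[ℚ] ℂ) : L →+* ℂ)
  have hirr := Polynomial.cyclotomic.irreducible_rat (NeZero.pos n)
  let g := IsCyclotomicExtension.fromZetaAut (hζ.pow_of_coprime t ht) hirr
  have hg : g (IsCyclotomicExtension.zeta n ℚ L) = (IsCyclotomicExtension.zeta n ℚ L) ^ t :=
    IsCyclotomicExtension.fromZetaAut_spec (hζ.pow_of_coprime t ht) hirr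
  obtain ⟨σ, hσ⟩ := Pool.Agent.H977R3.CM.exists_aut j (g : L ≃+* L)
  refine ⟨σ, fun z hz => ?_⟩
  obtain ⟨i, hi, rfl⟩ := (hζ.map_of_injective j.injective).eq_pow_of_pow_eq_one hz
  rw [map_pow, hσ]
  have : (g : L ≃+* L) (IsCyclotomicExtension.zeta n ℚ L) =
      (IsCyclotomicExtension.zeta n ℚ L) ^ t := hg
  rw [this, map_pow, ← pow_mul, ← pow_mul, mul_comm]

/-- an automorphism of `ℂ` raising the `n`-th roots of unity to the `t`-th power -/
theorem exists_sigma (n : ℕ) (hn : n ≠ 0) (t : ℕ) (ht : t.Coprime n) :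
    ∃ σ : ℂ ≃+* ℂ, ∀ z : ℂ, z ^ n = 1 → σ z = z ^ t := by
  have : NeZero n := ⟨hn⟩
  exact @exists_sigma_aux (CyclotomicField n ℚ) _ (CyclotomicField.algebra n ℚ) n _
    inferInstance t ht

variable {G : Type} [Group G] [Fintype G]

lemma lin_of_comm {C : Type} [Group C] [Fintype C] (hcomm : ∀ a b : C, a * b = b * a)
    {lam : C → ℂ} (h : IsIrrChar lam) :
    lam 1 = 1 ∧ ∀ g h, lam (g * h) = lam g * lam h := by
  rcases dichotomy (G := C) ⊥ inferInstance (fun g h => by
    rw [Subgroup.mem_bot, hcomm g h]; group) h with h1 | ⟨h1, -, h2⟩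
  · exfalso
    have : (∑ g : C, if g ∈ (⊥ : Subgroup C) then lam g else 0) = lam 1 := by
      rw [Finset.sum_eq_single 1]
      · simp
      · intro b _ hb
        rw [if_neg]
        rwa [Subgroup.mem_bot]
      · simp
    rw [this] at h1
    obtain ⟨n, hn, h2⟩ := irr_deg h
    rw [h2] at h1
    have : n = 0 := by exact_mod_cast h1
    omega
  · exact ⟨h1, h2⟩

/-- Galois conjugation of character values is given by powers of the argument -/
theorem galois_value {f : G → ℂ} (hf : IsRepChar f) (σ : ℂ ≃+* ℂ) (t : ℕ)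
    (hσ : ∀ z : ℂ, z ^ (Nat.card G) = 1 → σ z = z ^ t) (g : G) : σ (f g) = f (g ^ t) := by
  have hcomm : ∀ a b : Subgroup.zpowers g, a * b = b * a := by
    rintro ⟨a, i, rfl⟩ ⟨b, j, rfl⟩
    apply Subtype.ext
    show g ^ i * g ^ j = g ^ j * g ^ i
    rw [← zpow_add, ← zpow_add, add_comm]
  have hc : IsRepChar (fun c : Subgroup.zpowers g => f ((Subgroup.zpowers g).subtype c)) :=
    hf.comp (Subgroup.zpowers g).subtype
  set h : Subgroup.zpowers g → ℂ := fun c => f ((Subgroup.zpowers g).subtype c) with hh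
  let g0 : Subgroup.zpowers g := ⟨g, Subgroup.mem_zpowers g⟩
  have e1 : f g = h g0 := rfl
  have e2 : f (g ^ t) = h (g0 ^ t) := by
    simp [hh, g0]
  rw [e1, e2, expand_at h hc.isClass g0, expand_at h hc.isClass (g0 ^ t), map_sum]
  refine Finset.sum_congr rfl fun lam hlam => ?_
  have hl := mem_Irr.mp hlam
  obtain ⟨n, hn⟩ := mult_nat_rep hc (IsRepChar.of_irr hl)
  rw [hn, map_mul, map_natCast]
  congr 1
  obtain ⟨h1, h2⟩ := lin_of_comm hcomm hl
  have hp : ∀ k : ℕ, lam (g0 ^ k) = lam g0 ^ k := by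
    intro k
    induction k with
    | zero => simpa using h1
    | succ k ih => rw [pow_succ, h2, ih, pow_succ]
  rw [hp, hσ]
  rw [← hp]
  have : g0 ^ Nat.card G = 1 := by
    apply Subtype.ext
    simp [g0, pow_card_eq_one']
  rw [this, h1]

/-- Galois conjugates of characters are characters -/
theorem repChar_sigma {f : G → ℂ} (hf : IsRepChar f) (σ : ℂ ≃+* ℂ) :
    IsRepChar (fun g => σ (f g)) := by
  obtain ⟨V, _, _, _, rho, rfl⟩ := hf
  let b := Module.finBasis ℂ V
  let M : G →* Matrix (Fin (Module.finrank ℂ V)) (Fin (Module.finrank ℂ V)) ℂ :=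
    { toFun := fun g => LinearMap.toMatrixAlgEquiv b (rho g)
      map_one' := by rw [map_one, map_one]
      map_mul' := fun x y => by rw [map_mul, map_mul] }
  let N : G →* Matrix (Fin (Module.finrank ℂ V)) (Fin (Module.finrank ℂ V)) ℂ :=
    (RingHom.mapMatrix (m := Fin (Module.finrank ℂ V)) (σ : ℂ →+* ℂ)).toMonoidHom.comp M
  let rho' : Representation ℂ G (Fin (Module.finrank ℂ V) → ℂ) :=
    ((Matrix.toLinAlgEquiv' : Matrix (Fin (Module.finrank ℂ V)) (Fin (Module.finrank ℂ V)) ℂ ≃ₐ[ℂ] _) : _ →* _).comp N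
  refine ⟨_, inferInstance, inferInstance, inferInstance, rho', ?_⟩
  funext g
  have h1 : rho'.character g = (N g).trace := by
    show LinearMap.trace ℂ _ (Matrix.toLin' (N g)) = _
    rw [Matrix.trace_toLin'_eq]
  rw [h1]
  have h2 : rho.character g = (M g).trace := LinearMap.trace_eq_matrix_trace ℂ b _
  rw [h2]
  show σ (M g).trace = ((M g).map σ).trace
  simp [Matrix.trace, map_sum]

/-- a character of norm one is irreducible -/
theorem irr_of_norm {f : G → ℂ} (hf : IsRepChar f) (h1 : B f f = 1) : IsIrrChar f := by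
  have key : ∀ chi ∈ Irr G, ∃ n : ℕ, B f chi = n := fun chi hchi =>
    mult_nat_rep hf (IsRepChar.of_irr (mem_Irr.mp hchi))
  choose! nn hnn using key
  have h2 := B_expand f f hf.isClass
  rw [h1] at h2
  have h3 : (1 : ℂ) = ∑ chi ∈ Irr G, ((nn chi * nn chi : ℕ) : ℂ) := by
    rw [h2]
    refine Finset.sum_congr rfl fun chi hchi => ?_
    rw [B_comm chi f, hnn chi hchi]
    push_cast
    rfl
  have h4 : 1 = ∑ chi ∈ Irr G, nn chi * nn chi := by exact_mod_cast h3
  obtain ⟨c0, hc0, hne⟩ := Finset.exists_ne_zero_of_sum_ne_zero (by rw [← h4]; exact one_ne_zero :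
    ∑ chi ∈ Irr G, nn chi * nn chi ≠ 0)
  have h5 : ∀ chi ∈ Irr G, chi ≠ c0 → nn chi = 0 := by
    intro chi hchi hcc
    by_contra hz
    have h6 : ∑ x ∈ {c0, chi}, nn x * nn x ≤ ∑ chi ∈ Irr G, nn chi * nn chi := by
      apply Finset.sum_le_sum_of_subset
      intro x hx
      simp only [Finset.mem_insert, Finset.mem_singleton] at hx
      rcases hx with rfl | rfl
      · exact hc0
      · exact hchi
    rw [← h4, Finset.sum_pair (Ne.symm hcc)] at h6
    have h7 : 0 < nn c0 * nn c0 := Nat.pos_of_ne_zero hne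
    have h8 : 0 < nn chi * nn chi := Nat.mul_pos (Nat.pos_of_ne_zero hz) (Nat.pos_of_ne_zero hz)
    omega
  have h6 : nn c0 * nn c0 = 1 := by
    rw [h4]
    symm
    rw [Finset.sum_eq_single c0]
    · intro b hb hbc
      rw [h5 b hb hbc, mul_zero]
    · intro h; exact absurd hc0 h
  have h7 : nn c0 = 1 := by
    rcases Nat.lt_or_ge (nn c0) 2 with h | h
    · interval_cases (nn c0)
      · omega
      · rfl
    · nlinarith
  have h8 : f = c0 := by
    funext g
    rw [expand_at f hf.isClass g, Finset.sum_eq_single c0]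
    · rw [hnn c0 hc0, h7]; simp
    · intro b hb hbc
      rw [hnn b hb, h5 b hb hbc]; simp
    · intro h; exact absurd hc0 h
  rw [h8]
  exact mem_Irr.mp hc0

lemma B_sigma (f h : G → ℂ) (σ : ℂ ≃+* ℂ) :
    B (fun g => σ (f g)) (fun g => σ (h g)) = σ (B f h) := by
  unfold B
  rw [map_mul, map_sum, map_inv₀, map_natCast]
  simp only [map_mul]

theorem irr_sigma {f : G → ℂ} (hf : IsIrrChar f) (σ : ℂ ≃+* ℂ) :
    IsIrrChar (fun g => σ (f g)) := by
  apply irr_of_norm (repChar_sigma (IsRepChar.of_irr hf) σ)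
  rw [B_sigma, B_irr hf hf, if_pos rfl, map_one]

/-- the power map on class functions -/
def P (t : ℕ) (f : G → ℂ) : G → ℂ := fun g => f (g ^ t)

theorem irr_P {f : G → ℂ} (hf : IsIrrChar f) {t : ℕ} (ht : t.Coprime (Nat.card G)) :
    IsIrrChar (P t f) := by
  obtain ⟨σ, hσ⟩ := exists_sigma (Nat.card G) Nat.card_pos.ne' t ht
  have : P t f = fun g => σ (f g) := by
    funext g
    exact (galois_value (IsRepChar.of_irr hf) σ t hσ g).symm
  rw [this]
  exact irr_sigma hf σ

/-- equality of fields of values forces equality of the exponents fixing the character -/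
theorem P_fixed_of_field {f h : G → ℂ} (hf : IsIrrChar f) (hh : IsIrrChar h)
    (he : Subfield.closure (Set.range f) = Subfield.closure (Set.range h))
    {t : ℕ} (ht : t.Coprime (Nat.card G)) (hP : P t f = f) : P t h = h := by
  obtain ⟨σ, hσ⟩ := exists_sigma (Nat.card G) Nat.card_pos.ne' t ht
  let K : Subfield ℂ := (σ : ℂ →+* ℂ).eqLocusField (RingHom.id ℂ)
  have h1 : Set.range f ⊆ (K : Set ℂ) := by
    rintro _ ⟨g, rfl⟩
    show σ (f g) = f g
    rw [galois_value (IsRepChar.of_irr hf) σ t hσ g]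
    exact congrFun hP g
  have h2 : Subfield.closure (Set.range f) ≤ K := Subfield.closure_le.mpr h1
  rw [he] at h2
  funext g
  show h (g ^ t) = h g
  rw [← galois_value (IsRepChar.of_irr hh) σ t hσ g]
  have : h g ∈ K := h2 (Subfield.subset_closure ⟨g, rfl⟩)
  exact this

/-- Brauer's permutation lemma for a power map -/
theorem brauer {ι : Type} [Fintype ι] (cls : G → ι) (rep : ι → G)
    (hrep : ∀ i, cls (rep i) = i) (hcls : ∀ g h : G, cls g = cls h → IsConj g h)
    (hcls' : ∀ g h : G, cls (h * g * h⁻¹) = cls g)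
    {t : ℕ} (ht : t.Coprime (Nat.card G)) :
    ((Irr G).filter (fun chi => P t chi = chi)).card =
      (Finset.univ.filter (fun i => cls (rep i ^ t) = i)).card := by
  have hcl : ∀ i, IsClass (fun g => if cls g = i then (1 : ℂ) else 0) := by
    intro i g y
    simp only [hcls']
  have hval : ∀ chi : G → ℂ, IsIrrChar chi → ∀ g : G, chi (rep (cls g) ^ t) = chi (g ^ t) := by
    intro chi hchi g
    obtain ⟨c, hc⟩ := isConj_iff.mp (hcls g (rep (cls g)) (hrep _).symm)
    rw [← hc, conj_pow]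
    exact hchi.isClass _ _
  have e1 : (((Irr G).filter (fun chi => P t chi = chi)).card : ℂ) =
      ((Finset.univ.filter (fun i => cls (rep i ^ t) = i)).card : ℂ) := by
    rw [Finset.card_filter, Finset.card_filter]
    push_cast
    have r : ∀ i : ι, (if cls (rep i ^ t) = i then (1 : ℂ) else 0) =
        ∑ chi ∈ Irr G, (Nat.card G : ℂ)⁻¹ * ∑ g : G, (if cls g = i then (1 : ℂ) else 0) *
          (chi g⁻¹ * chi (g ^ t)) := by
      intro i
      have h1 : (if cls (rep i ^ t) = i then (1 : ℂ) else 0) = ∑ chi ∈ Irr G,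
          B (fun g => if cls g = i then (1 : ℂ) else 0) chi * chi (rep i ^ t) :=
        expand_at _ (hcl i) (rep i ^ t)
      rw [h1]
      refine Finset.sum_congr rfl fun chi hchi => ?_
      unfold B
      rw [mul_assoc, Finset.sum_mul]
      congr 1
      refine Finset.sum_congr rfl fun g _ => ?_
      show (if cls g = i then (1 : ℂ) else 0) * chi g⁻¹ * chi (rep i ^ t) = _
      by_cases hg : cls g = i
      · rw [if_pos hg, one_mul, one_mul, ← hval chi (mem_Irr.mp hchi) g, hg]
      · rw [if_neg hg]; ring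
    simp only [r]
    rw [Finset.sum_comm]
    refine Finset.sum_congr rfl fun chi hchi => ?_
    rw [← Finset.mul_sum, Finset.sum_comm]
    have h2 : ∀ g : G, ∑ i : ι, (if cls g = i then (1 : ℂ) else 0) * (chi g⁻¹ * chi (g ^ t)) =
        P t chi g * chi g⁻¹ := by
      intro g
      rw [← Finset.sum_mul, Finset.sum_ite_eq]
      simp [P, mul_comm]
    simp only [h2]
    have h3 := B_irr (irr_P (mem_Irr.mp hchi) ht) (mem_Irr.mp hchi)
    unfold B at h3
    rw [h3]
  exact_mod_cast e1

omit [Fintype G] in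
/-- inflation -/
theorem irr_inflate {H : Type} [Group H] [Fintype H] (pi : G →* H)
    (hs : Function.Surjective pi) {f : H → ℂ} (hf : IsIrrChar f) :
    IsIrrChar (fun g => f (pi g)) := by
  obtain ⟨V, _, _, _, rho, hr, rfl⟩ := hf
  refine ⟨V, _, _, inferInstance, rho.comp pi, ?_, rfl⟩
  let e : Subrepresentation (rho.comp pi) ≃o Subrepresentation rho :=
    { toFun := fun W => ⟨W.toSubmodule, fun h w hw => by
        obtain ⟨g, rfl⟩ := hs h
        exact W.apply_mem_toSubmodule g hw⟩
      invFun := fun W => ⟨W.toSubmodule, fun g w hw => W.apply_mem_toSubmodule (pi g) hw⟩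
      left_inv := fun W => rfl
      right_inv := fun W => rfl
      map_rel_iff' := Iff.rfl }
  have : IsSimpleOrder (Subrepresentation rho) := hr
  exact e.isSimpleOrder

end Pool.Agent.R677.FV
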