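import Mathlib

/-!
# Chief series of finite 2-groups
-/

set_option autoImplicit false

namespace Pool.Agent.R677.FV

/-- `N 0 > N 1 > ... > N r` is a chief series of `G` (with `r` factors): it starts at `G`, ends
at `1`, all its terms are normal in `G`, and no normal subgroup of `G` lies strictly between two
consecutive terms -/
def IsChiefSeries (G : Type) [Group G] (r : ℕ) (N : ℕ → Subgroup G) : Prop :=
  N 0 = ⊤ ∧ N r = ⊥ ∧ (∀ i ≤ r, (N i).Normal) ∧ ∀ i < r, N (i + 1) < N i ∧
    ∀ K : Subgroup G, K.Normal → N (i + 1) ≤ K → K ≤ N i → K = N (i + 1) ∨ K = N i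

theorem chief_two (n : ℕ) : ∀ (G : Type) [Group G] [Finite G], Nat.card G = 2 ^ n →
    ∃ N : ℕ → Subgroup G, IsChiefSeries G n N := by
  induction n with
  | zero =>
    intro G _ _ hc
    rw [pow_zero] at hc
    have : Subsingleton G := (Nat.card_eq_one_iff_unique.mp hc).1
    refine ⟨fun _ => ⊥, Subsingleton.elim _ _, rfl, fun _ _ => inferInstance, fun i hi => ?_⟩
    exact absurd hi (Nat.not_lt_zero i)
  | succ n ih =>
    intro G _ _ hc
    have hp : IsPGroup 2 G := IsPGroup.of_card hc
    have hnt : Nontrivial G := by
      apply Finite.one_lt_card_iff_nontrivial.mp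
      rw [hc]
      exact Nat.one_lt_two_pow (Nat.succ_ne_zero n)
    have hprime : Fact (Nat.Prime 2) := ⟨Nat.prime_two⟩
    have hcn : Nontrivial (Subgroup.center G) := hp.center_nontrivial
    have hcp : IsPGroup 2 (Subgroup.center G) := hp.to_subgroup _
    have hdvd : 2 ∣ Nat.card (Subgroup.center G) := by
      obtain ⟨m, hm⟩ := IsPGroup.iff_card.mp hcp
      have h1 : 1 < Nat.card (Subgroup.center G) := Finite.one_lt_card_iff_nontrivial.mpr hcn
      rw [hm] at h1 ⊢
      apply dvd_pow_self
      rintro rfl
      simp at h1
    obtain ⟨z, hz⟩ := exists_prime_orderOf_dvd_card' 2 hdvd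
    have hzo : orderOf (z : G) = 2 := by rw [Subgroup.orderOf_coe, hz]
    have hZc : Subgroup.zpowers (z : G) ≤ Subgroup.center G := by
      rw [Subgroup.zpowers_le]
      exact z.2
    have hZn : (Subgroup.zpowers (z : G)).Normal := ⟨fun x hx g => by
      have h1 := Subgroup.mem_center_iff.mp (hZc hx) g
      rw [h1, mul_inv_cancel_right]
      exact hx⟩
    have hZcard : Nat.card (Subgroup.zpowers (z : G)) = 2 := by
      rw [Nat.card_zpowers, hzo]
    have hQ : Nat.card (G ⧸ Subgroup.zpowers (z : G)) = 2 ^ n := by
      have h1 := Subgroup.card_eq_card_quotient_mul_card_subgroup (Subgroup.zpowers (z : G))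
      rw [hc, hZcard, pow_succ] at h1
      omega
    obtain ⟨M, hM0, hMn, hMN, hM⟩ := ih _ hQ
    set q := QuotientGroup.mk' (Subgroup.zpowers (z : G)) with hq
    have hqs : Function.Surjective q := QuotientGroup.mk'_surjective _
    have hker : q.ker = Subgroup.zpowers (z : G) := QuotientGroup.ker_mk' _
    refine ⟨fun i => if i ≤ n then (M i).comap q else ⊥, ?_, ?_, ?_, ?_⟩
    · simp only [Nat.zero_le, if_true]
      rw [hM0, Subgroup.comap_top]
    · simp
    · intro i _
      by_cases hi : i ≤ n
      · simp only [if_pos hi]
        have := hMN i hi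
        exact this.comap q
      · simp only [if_neg hi]
        infer_instance
    · intro i hi
      rcases Nat.lt_or_ge i n with hin | hin
      · have h1 : i ≤ n := hin.le
        have h2 : i + 1 ≤ n := hin
        simp only [if_pos h1, if_pos h2]
        obtain ⟨h3, h4⟩ := hM i hin
        refine ⟨(Subgroup.comap_lt_comap_of_surjective hqs).mpr h3, ?_⟩
        intro K hK hK1 hK2
        have hkK : q.ker ≤ K := by
          refine le_trans ?_ hK1
          intro x hx
          rw [Subgroup.mem_comap, MonoidHom.mem_ker.mp hx]
          exact one_mem _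
        have h5 := h4 (K.map q) (hK.map q hqs) (by
          have := Subgroup.map_mono (f := q) hK1
          rwa [Subgroup.map_comap_eq_self_of_surjective hqs] at this) (by
          have := Subgroup.map_mono (f := q) hK2
          rwa [Subgroup.map_comap_eq_self_of_surjective hqs] at this)
        rcases h5 with h5 | h5
        · left
          rw [← h5, Subgroup.comap_map_eq_self hkK]
        · right
          rw [← h5, Subgroup.comap_map_eq_self hkK]
      · have h0 : i = n := by omega
        subst h0
        simp only [le_refl, if_true, Nat.not_succ_le_self, if_false]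
        have h6 : (M i).comap q = Subgroup.zpowers (z : G) := by
          rw [hMn]
          exact hker
        rw [h6]
        refine ⟨?_, ?_⟩
        · rw [bot_lt_iff_ne_bot]
          intro h
          rw [h] at hZcard
          simp at hZcard
        · intro K hK hK1 hK2
          have h7 := Subgroup.card_dvd_of_le hK2
          rw [hZcard] at h7
          rcases (Nat.dvd_prime Nat.prime_two).mp h7 with h8 | h8
          · left
            exact Subgroup.eq_bot_of_card_eq K h8
          · right
            exact Subgroup.eq_of_le_of_card_ge hK2 (by rw [hZcard, h8])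

end Pool.Agent.R677.FV
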