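import Pool.Agent.R677.FV.Grp

/-!
# Conjugacy classes of the two groups
-/

set_option autoImplicit false

namespace Pool.Agent.R677.FV

def xG : G512 := ⟨(1, 0), false, 0⟩
def yG : G512 := ⟨(0, 1), false, 0⟩
def uG : G512 := ⟨(0, 0), true, 0⟩
def sG : G512 := ⟨(0, 0), false, 1⟩

def xQ : G32 := ⟨1, false, 0⟩
def uQ : G32 := ⟨0, true, 0⟩
def sQ : G32 := ⟨0, false, 1⟩

lemma genG_aux : ∀ (a : Fin 32) (b : Fin 2) (e : Bool) (k : Fin 4),
    clsG (xG * ⟨(a, b), e, k⟩ * xG⁻¹) = clsG ⟨(a, b), e, k⟩ ∧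
    clsG (yG * ⟨(a, b), e, k⟩ * yG⁻¹) = clsG ⟨(a, b), e, k⟩ ∧
    clsG (uG * ⟨(a, b), e, k⟩ * uG⁻¹) = clsG ⟨(a, b), e, k⟩ ∧
    clsG (sG * ⟨(a, b), e, k⟩ * sG⁻¹) = clsG ⟨(a, b), e, k⟩ := by
  decide +kernel

lemma conG_aux : ∀ (a : Fin 32) (b : Fin 2) (e : Bool) (k : Fin 4),
    conG ⟨(a, b), e, k⟩ * ⟨(a, b), e, k⟩ * (conG ⟨(a, b), e, k⟩)⁻¹ =
      repG (clsG ⟨(a, b), e, k⟩) := by
  decide +kernel

lemma prodG_aux : ∀ (a : Fin 32) (b : Fin 2) (e : Bool) (k : Fin 4),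
    (⟨(a, b), e, k⟩ : G512) = xG ^ a.val * yG ^ b.val * uG ^ (cond e 1 0) * sG ^ k.val := by
  decide +kernel

lemma powG_aux : ∀ (a : Fin 32) (b : Fin 2) (e : Bool) (k : Fin 4),
    (⟨(a, b), e, k⟩ : G512) ^ 64 = 1 := by
  decide +kernel

lemma genQ_aux : ∀ (a : Fin 4) (e : Bool) (k : Fin 4),
    clsQ (xQ * ⟨a, e, k⟩ * xQ⁻¹) = clsQ ⟨a, e, k⟩ ∧
    clsQ (uQ * ⟨a, e, k⟩ * uQ⁻¹) = clsQ ⟨a, e, k⟩ ∧
    clsQ (sQ * ⟨a, e, k⟩ * sQ⁻¹) = clsQ ⟨a, e, k⟩ := by
  decide +kernel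

lemma conQ_aux : ∀ (a : Fin 4) (e : Bool) (k : Fin 4),
    conQ ⟨a, e, k⟩ * ⟨a, e, k⟩ * (conQ ⟨a, e, k⟩)⁻¹ = repQ (clsQ ⟨a, e, k⟩) := by
  decide +kernel

lemma prodQ_aux : ∀ (a : Fin 4) (e : Bool) (k : Fin 4),
    (⟨a, e, k⟩ : G32) = xQ ^ a.val * uQ ^ (cond e 1 0) * sQ ^ k.val := by
  decide +kernel

/-- the elements respecting a class function -/
def stab {G ι : Type} [Group G] (c : G → ι) : Subgroup G where
  carrier := {h | ∀ g, c (h * g * h⁻¹) = c g}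
  one_mem' := by intro g; simp
  mul_mem' := by
    intro a b ha hb g
    have : a * b * g * (a * b)⁻¹ = a * (b * g * b⁻¹) * a⁻¹ := by group
    rw [this, ha, hb]
  inv_mem' := by
    intro a ha g
    have h1 := ha (a⁻¹ * g * a⁻¹⁻¹)
    have : a * (a⁻¹ * g * a⁻¹⁻¹) * a⁻¹ = g := by group
    rw [this] at h1
    exact h1.symm

theorem clsG_conj (g h : G512) : clsG (h * g * h⁻¹) = clsG g := by
  have hx : xG ∈ stab clsG := fun g => (genG_aux g.v.1 g.v.2 g.e g.k).1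
  have hy : yG ∈ stab clsG := fun g => (genG_aux g.v.1 g.v.2 g.e g.k).2.1
  have hu : uG ∈ stab clsG := fun g => (genG_aux g.v.1 g.v.2 g.e g.k).2.2.1
  have hs : sG ∈ stab clsG := fun g => (genG_aux g.v.1 g.v.2 g.e g.k).2.2.2
  have hh : h ∈ stab clsG := by
    have := prodG_aux h.v.1 h.v.2 h.e h.k
    have h2 : h = xG ^ h.v.1.val * yG ^ h.v.2.val * uG ^ (cond h.e 1 0) * sG ^ h.k.val := this
    rw [h2]
    exact mul_mem (mul_mem (mul_mem (pow_mem hx _) (pow_mem hy _)) (pow_mem hu _)) (pow_mem hs _)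
  exact hh g

theorem clsQ_conj (g h : G32) : clsQ (h * g * h⁻¹) = clsQ g := by
  have hx : xQ ∈ stab clsQ := fun g => (genQ_aux g.v g.e g.k).1
  have hu : uQ ∈ stab clsQ := fun g => (genQ_aux g.v g.e g.k).2.1
  have hs : sQ ∈ stab clsQ := fun g => (genQ_aux g.v g.e g.k).2.2
  have hh : h ∈ stab clsQ := by
    have := prodQ_aux h.v h.e h.k
    have h2 : h = xQ ^ h.v.val * uQ ^ (cond h.e 1 0) * sQ ^ h.k.val := this
    rw [h2]
    exact mul_mem (mul_mem (pow_mem hx _) (pow_mem hu _)) (pow_mem hs _)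
  exact hh g

theorem clsG_inj (g h : G512) (he : clsG g = clsG h) : IsConj g h := by
  have h1 : IsConj g (repG (clsG g)) := isConj_iff.mpr ⟨_, conG_aux g.v.1 g.v.2 g.e g.k⟩
  have h2 : IsConj h (repG (clsG h)) := isConj_iff.mpr ⟨_, conG_aux h.v.1 h.v.2 h.e h.k⟩
  rw [he] at h1
  exact h1.trans h2.symm

theorem clsQ_inj (g h : G32) (he : clsQ g = clsQ h) : IsConj g h := by
  have h1 : IsConj g (repQ (clsQ g)) := isConj_iff.mpr ⟨_, conQ_aux g.v g.e g.k⟩
  have h2 : IsConj h (repQ (clsQ h)) := isConj_iff.mpr ⟨_, conQ_aux h.v h.e h.k⟩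
  rw [he] at h1
  exact h1.trans h2.symm

theorem repG_cls : ∀ i, clsG (repG i) = i := by decide +kernel
theorem repQ_cls : ∀ i, clsQ (repQ i) = i := by decide +kernel

theorem powG (g : G512) : g ^ 64 = 1 := powG_aux g.v.1 g.v.2 g.e g.k

theorem powG33 (g : G512) : IsConj g (g ^ 33) := by
  have key : ∀ i, clsG (repG i ^ 33) = i := by decide +kernel
  have h1 : IsConj g (repG (clsG g)) := clsG_inj _ _ (repG_cls _).symm
  obtain ⟨c, hc⟩ := isConj_iff.mp h1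
  have h2 : IsConj (g ^ 33) (repG (clsG g) ^ 33) := isConj_iff.mpr ⟨c, by rw [← conj_pow, hc]⟩
  have h3 : IsConj (repG (clsG g)) (repG (clsG g) ^ 33) :=
    clsG_inj _ _ (by rw [key, repG_cls])
  exact (h1.trans h3).trans h2.symm

theorem cG31 : (Finset.univ.filter (fun i => clsG (repG i ^ 31) = i)).card = 25 := by
  decide +kernel
theorem cG17 : (Finset.univ.filter (fun i => clsG (repG i ^ 17) = i)).card = 37 := by
  decide +kernel
theorem cG15 : (Finset.univ.filter (fun i => clsG (repG i ^ 15) = i)).card = 25 := by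
  decide +kernel
theorem cG25 : (Finset.univ.filter (fun i => clsG (repG i ^ 25) = i)).card = 21 := by
  decide +kernel
theorem cG7 : (Finset.univ.filter (fun i => clsG (repG i ^ 7) = i)).card = 17 := by
  decide +kernel
theorem cG5 : (Finset.univ.filter (fun i => clsG (repG i ^ 5) = i)).card = 15 := by
  decide +kernel
theorem cG3 : (Finset.univ.filter (fun i => clsG (repG i ^ 3) = i)).card = 11 := by
  decide +kernel
theorem cG1 : (Finset.univ.filter (fun i => clsG (repG i ^ 1) = i)).card = 53 := by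
  decide +kernel
theorem cQ5 : (Finset.univ.filter (fun i => clsQ (repQ i ^ 5) = i)).card = 14 := by
  decide +kernel
theorem cQ31 : (Finset.univ.filter (fun i => clsQ (repQ i ^ 31) = i)).card = 6 := by
  decide +kernel

/-- the projection on the quotient of order 32 -/
def piFun (g : G512) : G32 :=
  ⟨Fin.ofNat 4 (g.v.1.val + 2 * g.v.2.val), g.e, g.k⟩

lemma ofNat_add_aux : ∀ (a : Fin 32) (b : Fin 2) (a' : Fin 32) (b' : Fin 2),
    Fin.ofNat 4 ((a + a').val + 2 * (b + b').val) =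
      Fin.ofNat 4 (a.val + 2 * b.val) + Fin.ofNat 4 (a'.val + 2 * b'.val) := by
  decide +kernel

def ll (v : A64) : Fin 4 := Fin.ofNat 4 (v.1.val + 2 * v.2.val)

lemma ll_add (v w : A64) : ll (v + w) = ll v + ll w := ofNat_add_aux v.1 v.2 w.1 w.2

lemma ll_zero : ll 0 = 0 := by decide

lemma ll_neg (v : A64) : ll (-v) = -ll v := by
  have := ll_add v (-v)
  rw [add_neg_cancel, ll_zero] at this
  exact (neg_eq_of_add_eq_zero_right this.symm).symm

lemma ll_act_aux : ∀ (k : Fin 4) (a : Fin 32) (b : Fin 2),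
    ll (actG k (a, b)) = ll (a, b) := by
  decide +kernel

lemma ll_d : ∀ k : Fin 4, ll (dG k) = k := by decide

def pi : G512 →* G32 where
  toFun g := ⟨ll g.v, g.e, g.k⟩
  map_one' := rfl
  map_mul' := by
    rintro ⟨v, e, k⟩ ⟨w, f, l⟩
    apply El.ext
    · show ll (v + sg e (actG k w + pr f (dG k))) = ll v + sg e (ll w + pr f k)
      rw [ll_add]
      congr 1
      have h1 : ll (actG k w) = ll w := ll_act_aux k w.1 w.2
      cases e <;> cases f <;> simp [sg, pr, ll_add, ll_neg, ll_zero, h1, ll_d]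
    · rfl
    · rfl

theorem pi_surj : Function.Surjective pi := by
  rintro ⟨v, e, k⟩
  refine ⟨⟨(Fin.ofNat 32 v.val, 0), e, k⟩, ?_⟩
  apply El.ext
  · show ll (Fin.ofNat 32 v.val, 0) = v
    revert v
    decide
  · rfl
  · rfl

end Pool.Agent.R677.FV
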