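import Mathlib

/-!
# Boolean bookkeeping of stabilisers in `(ℤ/32)ˣ`
-/

set_option autoImplicit false

namespace Pool.Agent.R677.FV

/-- the type of a character -/
abbrev Ty : Type := Bool × Bool × Bool × Bool × Bool × Bool × Bool

instance instDecTy : DecidableEq Ty := fun a b => instDecidableEqProd a b

def imp (a b : Bool) : Bool := !a || b

/-- closure conditions -/
def ok (T : Ty) : Bool :=
  let m := T.1
  let a17 := T.2.1
  let a15 := T.2.2.1
  let a25 := T.2.2.2.1
  let a7 := T.2.2.2.2.1
  let a5 := T.2.2.2.2.2.1
  let a3 := T.2.2.2.2.2.2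
  imp a25 a17 && imp a7 a17 && imp a5 a25 && imp a3 a25 && imp (m && a15) a17 &&
    imp (m && a17) a15 && imp (a15 && a17) m && imp (a7 && a25) a15 && imp (m && a7) a25 &&
    imp (m && a25) a7 && imp (a5 && m) a3 && imp (a3 && m) a5 && imp (a5 && a3) a15

lemma imp_of {a b : Bool} (h : a = true → b = true) : imp a b = true := by
  cases a <;> cases b <;> simp_all [imp]

lemma imp_of2 {a b c : Bool} (h : a = true → b = true → c = true) : imp (a && b) c = true := by
  cases a <;> cases b <;> cases c <;> simp_all [imp]

def T1 : Ty := (false, false, false, false, false, false, false)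
def T2 : Ty := (true, false, false, false, false, false, false)
def T3 : Ty := (false, false, true, false, false, false, false)
def T4 : Ty := (false, true, false, false, false, false, false)
def T5 : Ty := (true, true, true, false, false, false, false)
def T6 : Ty := (false, true, false, false, true, false, false)
def T7 : Ty := (false, true, false, true, false, false, false)
def T8 : Ty := (true, true, true, true, true, false, false)
def T9 : Ty := (false, true, false, true, false, true, false)
def T10 : Ty := (false, true, false, true, false, false, true)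
def T11 : Ty := (true, true, true, true, true, true, true)

lemma ok_cases (T : Ty) (h : ok T = true) : T = T1 ∨ T = T2 ∨ T = T3 ∨ T = T4 ∨ T = T5 ∨ T = T6 ∨
    T = T7 ∨ T = T8 ∨ T = T9 ∨ T = T10 ∨ T = T11 := by
  have key : ∀ a b c d e f g : Bool, ok (a, b, c, d, e, f, g) = true →
      (a, b, c, d, e, f, g) ∈ [T1, T2, T3, T4, T5, T6, T7, T8, T9, T10, T11] := by decide +kernel
  have h1 := key _ _ _ _ _ _ _ h
  simpa using h1

lemma ok_nine (T : Ty) (h : ok T = true) (h5 : T.2.2.2.2.2.1 = true) (h31 : T.1 = false) :
    T = T9 := by
  rcases ok_cases T h with h | h | h | h | h | h | h | h | h | h | h <;> subst h <;>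
    first | rfl | (exact absurd h5 (by decide)) | (exact absurd h31 (by decide))

/-- the property used in counting -/
def Good (p : Ty → Bool) (l : List Ty) : Prop :=
  ∀ T : Ty, ok T = true →
    (if p T = true then 1 else 0) = (l.map (fun S => if T = S then 1 else 0)).sum

lemma g31 : Good (fun T => T.1) [T2, T5, T8, T11] := by unfold Good; decide +kernel
lemma g17 : Good (fun T => T.2.1) [T4, T5, T6, T7, T8, T9, T10, T11] := by
  unfold Good; decide +kernel
lemma g15 : Good (fun T => T.2.2.1) [T3, T5, T8, T11] := by unfold Good; decide +kernel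
lemma g25 : Good (fun T => T.2.2.2.1) [T7, T8, T9, T10, T11] := by unfold Good; decide +kernel
lemma g7 : Good (fun T => T.2.2.2.2.1) [T6, T8, T11] := by unfold Good; decide +kernel
lemma g5 : Good (fun T => T.2.2.2.2.2.1) [T9, T11] := by unfold Good; decide +kernel
lemma g3 : Good (fun T => T.2.2.2.2.2.2) [T10, T11] := by unfold Good; decide +kernel
lemma g1 : Good (fun _ => true) [T1, T2, T3, T4, T5, T6, T7, T8, T9, T10, T11] := by
  unfold Good; decide +kernel

end Pool.Agent.R677.FV
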