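import Pool.Agent.R677.FV.Galois
import Pool.Agent.R677.FV.Cls
import Pool.Agent.R677.FV.Ty

/-!
# Counting the irreducible characters of the group of order 512 by field of values
-/

set_option autoImplicit false

open scoped BigOperators
open Pool.Agent.Helper884.IC Pool.Agent.R721.CD

noncomputable section

namespace Pool.Agent.R677.FV

open scoped Classical in
/-- whether the `t`-th power map fixes `f` -/
def v {G : Type} [Group G] [Fintype G] (f : G → ℂ) (t : ℕ) : Bool := decide (P t f = f)

lemma v_iff {G : Type} [Group G] [Fintype G] {f : G → ℂ} {t : ℕ} : v f t = true ↔ P t f = f := by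
  unfold v
  exact decide_eq_true_iff

lemma P_mul {G : Type} [Group G] [Fintype G] (f : G → ℂ) (s t : ℕ) : P (s * t) f = P s (P t f) := by
  funext g
  show f (g ^ (s * t)) = f ((g ^ s) ^ t)
  rw [pow_mul]

lemma v_mul {G : Type} [Group G] [Fintype G] {f : G → ℂ} {s t : ℕ} (hs : v f s = true)
    (ht : v f t = true) : v f (s * t) = true := by
  rw [v_iff] at *
  rw [P_mul, ht, hs]

lemma P_add32 {f : G512 → ℂ} (hf : IsClass f) (t : ℕ) (ht : t % 2 = 1) : P (t + 32) f = P t f := by
  funext g
  show f (g ^ (t + 32)) = f (g ^ t)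
  have h1 : g ^ (t + 32) = (g ^ t) ^ 33 := by
    rw [← pow_mul]
    have h2 : t * 33 = (t + 32) + 64 * (t / 2) := by omega
    rw [h2, pow_add g (t + 32), pow_mul, powG, one_pow, mul_one]
  rw [h1]
  obtain ⟨c, hc⟩ := isConj_iff.mp (powG33 (g ^ t))
  rw [← hc]
  exact hf _ _

lemma P_red {f : G512 → ℂ} (hf : IsClass f) (r q : ℕ) (hr : r % 2 = 1) :
    P (r + 32 * q) f = P r f := by
  induction q with
  | zero => rfl
  | succ q ih =>
    have : r + 32 * (q + 1) = (r + 32 * q) + 32 := by ring
    rw [this, P_add32 hf _ (by omega), ih]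

lemma v_red {f : G512 → ℂ} (hf : IsClass f) (t r q : ℕ) (hr : r % 2 = 1) (h : t = r + 32 * q)
    (ht : v f t = true) : v f r = true := by
  rw [v_iff] at *
  rw [h, P_red hf r q hr] at ht
  exact ht

/-- the type of a character: which of the power maps `31, 17, 15, 25, 7, 5, 3` fix it -/
def ty (f : G512 → ℂ) : Ty := (v f 31, v f 17, v f 15, v f 25, v f 7, v f 5, v f 3)

theorem ok_ty {f : G512 → ℂ} (hf : IsClass f) : ok (ty f) = true := by
  have r := v_red hf
  simp only [ok, ty, Bool.and_eq_true]
  refine ⟨⟨⟨⟨⟨⟨⟨⟨⟨⟨⟨⟨imp_of fun h => ?_, imp_of fun h => ?_⟩, imp_of fun h => ?_⟩,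
    imp_of fun h => ?_⟩, imp_of2 fun h h' => ?_⟩, imp_of2 fun h h' => ?_⟩,
    imp_of2 fun h h' => ?_⟩, imp_of2 fun h h' => ?_⟩, imp_of2 fun h h' => ?_⟩,
    imp_of2 fun h h' => ?_⟩, imp_of2 fun h h' => ?_⟩, imp_of2 fun h h' => ?_⟩,
    imp_of2 fun h h' => ?_⟩
  · exact r (25 * 25) 17 19 (by norm_num) (by norm_num) (v_mul h h)
  · exact r (7 * 7) 17 1 (by norm_num) (by norm_num) (v_mul h h)
  · exact v_mul (s := 5) (t := 5) h h
  · exact r (3 * (3 * (3 * (3 * (3 * 3))))) 25 22 (by norm_num) (by norm_num)
      (v_mul h (v_mul h (v_mul h (v_mul h (v_mul h h)))))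
  · exact r (31 * 15) 17 14 (by norm_num) (by norm_num) (v_mul h h')
  · exact r (31 * 17) 15 16 (by norm_num) (by norm_num) (v_mul h h')
  · exact r (15 * 17) 31 7 (by norm_num) (by norm_num) (v_mul h h')
  · exact r (7 * 25) 15 5 (by norm_num) (by norm_num) (v_mul h h')
  · exact r (31 * 7) 25 6 (by norm_num) (by norm_num) (v_mul h h')
  · exact r (31 * 25) 7 24 (by norm_num) (by norm_num) (v_mul h h')
  · exact r (31 * (5 * (5 * 5))) 3 121 (by norm_num) (by norm_num)
      (v_mul h' (v_mul h (v_mul h h)))
  · exact r (31 * (3 * (3 * 3))) 5 26 (by norm_num) (by norm_num)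
      (v_mul h' (v_mul h (v_mul h h)))
  · exact v_mul (s := 5) (t := 3) h h'

/-- the number of irreducible characters of a given type -/
def nT (T : Ty) : ℕ := ((Irr G512).filter (fun f => ty f = T)).card

lemma count_of (q : (G512 → ℂ) → Bool) (p : Ty → Bool) (l : List Ty)
    (hq : ∀ f, q f = p (ty f)) (h : Good p l) :
    ((Irr G512).filter (fun f => q f = true)).card = (l.map nT).sum := by
  rw [Finset.card_filter]
  have h1 : (l.map nT).sum =
      ∑ f ∈ Irr G512, (l.map (fun S => if ty f = S then 1 else 0)).sum := by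
    clear h
    induction l with
    | nil => simp
    | cons a l ih =>
      rw [List.map_cons, List.sum_cons, ih]
      simp only [List.map_cons, List.sum_cons]
      rw [Finset.sum_add_distrib, nT, Finset.card_filter]
  rw [h1]
  refine Finset.sum_congr rfl fun f hf => ?_
  rw [hq]
  exact h (ty f) (ok_ty (mem_Irr.mp hf).isClass)

lemma cop (t : ℕ) (ht : t % 2 = 1) : t.Coprime (Nat.card G512) := by
  rw [card_G512]
  have : (512 : ℕ) = 2 ^ 9 := by norm_num
  rw [this]
  apply Nat.Coprime.pow_right
  exact Nat.Coprime.symm (Nat.coprime_two_left.mpr (Nat.odd_iff.mpr ht))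

lemma brG (t : ℕ) (ht : t % 2 = 1) :
    ((Irr G512).filter (fun f => v f t = true)).card =
      (Finset.univ.filter (fun i => clsG (repG i ^ t) = i)).card := by
  have h := brauer clsG repG repG_cls clsG_inj clsG_conj (cop t ht)
  simp only [v_iff]
  convert h

lemma copQ (t : ℕ) (ht : t % 2 = 1) : t.Coprime (Nat.card G32) := by
  rw [card_G32]
  have : (32 : ℕ) = 2 ^ 5 := by norm_num
  rw [this]
  apply Nat.Coprime.pow_right
  exact Nat.Coprime.symm (Nat.coprime_two_left.mpr (Nat.odd_iff.mpr ht))

lemma brQ (t : ℕ) (ht : t % 2 = 1) :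
    ((Irr G32).filter (fun f => v f t = true)).card =
      (Finset.univ.filter (fun i => clsQ (repQ i ^ t) = i)).card := by
  have h := brauer clsQ repQ repQ_cls clsQ_inj clsQ_conj (copQ t ht)
  simp only [v_iff]
  convert h

/-- there are at least eight irreducible characters with field of values `ℚ(i)` -/
lemma nine : 8 ≤ nT T9 := by
  have h1 : ((Irr G32).filter (fun f => v f 5 = true)).card = 14 := by
    rw [brQ 5 (by norm_num)]
    convert cQ5
  have h2 : ((Irr G32).filter (fun f => v f 31 = true)).card = 6 := by
    rw [brQ 31 (by norm_num)]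
    convert cQ31
  have h3 : 8 ≤ ((Irr G32).filter (fun f => v f 5 = true ∧ v f 31 = false)).card := by
    have h4 : ((Irr G32).filter (fun f => v f 5 = true)) ⊆
        ((Irr G32).filter (fun f => v f 5 = true ∧ v f 31 = false)) ∪
          ((Irr G32).filter (fun f => v f 31 = true)) := by
      intro f hf
      rw [Finset.mem_filter] at hf
      rw [Finset.mem_union, Finset.mem_filter, Finset.mem_filter]
      rcases Bool.eq_false_or_eq_true (v f 31) with h | h
      · right; exact ⟨hf.1, h⟩
      · left; exact ⟨hf.1, hf.2, h⟩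
    have h5 := (Finset.card_le_card h4).trans (Finset.card_union_le _ _)
    omega
  refine h3.trans ?_
  refine Finset.card_le_card_of_injOn (fun (f : G32 → ℂ) => (fun g : G512 => f (pi g))) ?_ ?_
  · intro f hf
    rw [Finset.mem_coe, Finset.mem_filter] at hf
    rw [Finset.mem_coe, Finset.mem_filter]
    have hirr := irr_inflate pi pi_surj (mem_Irr.mp hf.1)
    refine ⟨mem_Irr.mpr hirr, ?_⟩
    have hv : ∀ t : ℕ, v (fun g : G512 => f (pi g)) t = v f t := by
      intro t
      have : (v (fun g => f (pi g)) t = true) ↔ (v f t = true) := by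
        rw [v_iff, v_iff]
        constructor
        · intro h
          funext x
          obtain ⟨g, rfl⟩ := pi_surj x
          have := congrFun h g
          show f (pi g ^ t) = f (pi g)
          rw [← map_pow]
          exact this
        · intro h
          funext g
          have := congrFun h (pi g)
          show f (pi (g ^ t)) = f (pi g)
          rw [map_pow]
          exact this
      exact Bool.eq_iff_iff.mpr this
    have hok := ok_ty hirr.isClass
    have h5 : v (fun g => f (pi g)) 5 = true := by rw [hv]; exact hf.2.1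
    have h31 : v (fun g => f (pi g)) 31 = false := by rw [hv]; exact hf.2.2
    exact ok_nine (ty (fun g => f (pi g))) hok (by simpa only [ty] using h5)
      (by simpa only [ty] using h31)
  · intro f hf f' hf' he
    funext x
    obtain ⟨g, rfl⟩ := pi_surj x
    exact congrFun he g

theorem all_le (T : Ty) (hT : ok T = true) : nT T ≤ 8 := by
  have hb : ∀ t N : ℕ, t % 2 = 1 →
      (Finset.univ.filter (fun i => clsG (repG i ^ t) = i)).card = N →
      ((Irr G512).filter (fun f => v f t = true)).card = N := by
    intro t N ht h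
    rw [brG t ht]
    convert h
  have q31 := count_of (fun f => v f 31) (fun T => T.1) _ (fun f => by simp only [ty]) g31
  have q17 := count_of (fun f => v f 17) (fun T => T.2.1) _ (fun f => by simp only [ty]) g17
  have q15 := count_of (fun f => v f 15) (fun T => T.2.2.1) _ (fun f => by simp only [ty]) g15
  have q25 := count_of (fun f => v f 25) (fun T => T.2.2.2.1) _ (fun f => by simp only [ty]) g25
  have q7 := count_of (fun f => v f 7) (fun T => T.2.2.2.2.1) _ (fun f => by simp only [ty]) g7
  have q5 := count_of (fun f => v f 5) (fun T => T.2.2.2.2.2.1) _ (fun f => by simp only [ty]) g5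
  have q3 := count_of (fun f => v f 3) (fun T => T.2.2.2.2.2.2) _ (fun f => by simp only [ty]) g3
  have q1 := count_of (fun _ => true) (fun _ => true) _ (fun _ => rfl) g1
  have p31 := hb 31 25 (by norm_num) (by convert cG31)
  have p17 := hb 17 37 (by norm_num) (by convert cG17)
  have p15 := hb 15 25 (by norm_num) (by convert cG15)
  have p25 := hb 25 21 (by norm_num) (by convert cG25)
  have p7 := hb 7 17 (by norm_num) (by convert cG7)
  have p5 := hb 5 15 (by norm_num) (by convert cG5)
  have p3 := hb 3 11 (by norm_num) (by convert cG3)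
  have p1 := hb 1 53 (by norm_num) (by convert cG1)
  have p1' : ((Irr G512).filter (fun f => v f 1 = true)) = Irr G512 := by
    apply Finset.filter_true_of_mem
    intro f _
    rw [v_iff]
    funext g
    show f (g ^ 1) = f g
    rw [pow_one]
  rw [p1'] at p1
  have q1' : ((Irr G512).filter (fun _ => true = true)) = Irr G512 := by
    apply Finset.filter_true_of_mem
    intro f _
    rfl
  rw [q1'] at q1
  have h9 := nine
  replace q31 := p31.symm.trans q31
  replace q17 := p17.symm.trans q17
  replace q15 := p15.symm.trans q15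
  replace q25 := p25.symm.trans q25
  replace q7 := p7.symm.trans q7
  replace q5 := p5.symm.trans q5
  replace q3 := p3.symm.trans q3
  replace q1 := p1.symm.trans q1
  simp only [List.map_cons, List.map_nil, List.sum_cons, List.sum_nil] at q31 q17 q15 q25 q7 q5 q3 q1
  rcases ok_cases T hT with h | h | h | h | h | h | h | h | h | h | h <;> rw [h] <;> omega

/-- at most eight irreducible characters of the group of order `512` share a field of values -/
theorem field_le (F : Subfield ℂ) :
    {chi : G512 → ℂ | IsIrrChar chi ∧ Subfield.closure (Set.range chi) = F}.encard ≤ 8 := by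
  rcases Set.eq_empty_or_nonempty
    {chi : G512 → ℂ | IsIrrChar chi ∧ Subfield.closure (Set.range chi) = F} with h | ⟨f0, h0, h0'⟩
  · rw [h]; simp
  · have hsub : {chi : G512 → ℂ | IsIrrChar chi ∧ Subfield.closure (Set.range chi) = F} ⊆
        (((Irr G512).filter (fun f => ty f = ty f0) : Finset (G512 → ℂ)) : Set (G512 → ℂ)) := by
      rintro f ⟨hf, hF⟩
      rw [Finset.mem_coe, Finset.mem_filter]
      refine ⟨mem_Irr.mpr hf, ?_⟩
      have hv : ∀ t : ℕ, t % 2 = 1 → v f t = v f0 t := by
        intro t ht
        apply Bool.eq_iff_iff.mpr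
        rw [v_iff, v_iff]
        constructor
        · exact P_fixed_of_field hf h0 (by rw [hF, h0']) (cop t ht)
        · exact P_fixed_of_field h0 hf (by rw [hF, h0']) (cop t ht)
      simp only [ty]
      rw [hv 31 (by norm_num), hv 17 (by norm_num), hv 15 (by norm_num), hv 25 (by norm_num),
        hv 7 (by norm_num), hv 5 (by norm_num), hv 3 (by norm_num)]
    refine (Set.encard_le_encard hsub).trans ?_
    rw [Set.encard_coe_eq_coe_finsetCard]
    have := all_le (ty f0) (ok_ty h0.isClass)
    unfold nT at this
    exact_mod_cast this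

end Pool.Agent.R677.FV
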