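import Mathlib

/-!
# The group of order 512 and its quotient of order 32
-/

set_option autoImplicit false

namespace Pool.Agent.R677.FV

/-- an action of `ℤ/4` on `A` together with a cocycle -/
structure Dat (A : Type) [AddCommGroup A] where
  act : Fin 4 → A → A
  d : Fin 4 → A
  act_add : ∀ k v w, act k (v + w) = act k v + act k w
  act_zero : ∀ v, act 0 v = v
  act_comp : ∀ k l v, act (k + l) v = act k (act l v)
  d_comp : ∀ k l, d (k + l) = d k + act k (d l)

/-- elements `v uᵉ sᵏ` -/
@[ext] structure El (A : Type) [AddCommGroup A] (D : Dat A) where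
  v : A
  e : Bool
  k : Fin 4
deriving DecidableEq

variable {A : Type} [AddCommGroup A]

def sg (e : Bool) (v : A) : A := cond e (-v) v

def pr (e : Bool) (v : A) : A := cond e v 0

lemma Dat.act_zero' (D : Dat A) (k : Fin 4) : D.act k 0 = 0 := by
  have := D.act_add k 0 0
  rw [add_zero] at this
  exact left_eq_add.mp this

lemma Dat.act_neg (D : Dat A) (k : Fin 4) (v : A) : D.act k (-v) = -D.act k v := by
  have := D.act_add k v (-v)
  rw [add_neg_cancel, D.act_zero'] at this
  exact (neg_eq_of_add_eq_zero_right this.symm).symm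

namespace El

variable {D : Dat A}

/-- multiplication -/
def mul (g h : El A D) : El A D :=
  ⟨g.v + sg g.e (D.act g.k h.v + pr h.e (D.d g.k)), xor g.e h.e, g.k + h.k⟩

/-- inverse -/
def inv (g : El A D) : El A D :=
  ⟨D.act (-g.k) (-(sg g.e g.v) - pr g.e (D.d g.k)), g.e, -g.k⟩

instance : Mul (El A D) := ⟨mul⟩
instance : Inv (El A D) := ⟨inv⟩
instance : One (El A D) := ⟨⟨0, false, 0⟩⟩

lemma mul_v (g h : El A D) : (g * h).v = g.v + sg g.e (D.act g.k h.v + pr h.e (D.d g.k)) := rfl
lemma mul_e (g h : El A D) : (g * h).e = xor g.e h.e := rfl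
lemma mul_k (g h : El A D) : (g * h).k = g.k + h.k := rfl
lemma inv_v (g : El A D) : (g⁻¹).v = D.act (-g.k) (-(sg g.e g.v) - pr g.e (D.d g.k)) := rfl
lemma inv_e (g : El A D) : (g⁻¹).e = g.e := rfl
lemma inv_k (g : El A D) : (g⁻¹).k = -g.k := rfl
lemma one_v : (1 : El A D).v = 0 := rfl
lemma one_e : (1 : El A D).e = false := rfl
lemma one_k : (1 : El A D).k = 0 := rfl

instance : Group (El A D) :=
  Group.ofRightAxioms
    (by
      rintro ⟨v1, e1, k1⟩ ⟨v2, e2, k2⟩ ⟨v3, e3, k3⟩
      apply El.ext
      · simp only [mul_v, mul_e, mul_k, D.act_comp, D.d_comp]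
        cases e1 <;> cases e2 <;> cases e3 <;>
          simp [sg, pr, D.act_add, D.act_neg, D.act_zero', D.act_comp] <;> abel
      · simp [mul_e]
      · simp only [mul_k]
        exact add_assoc _ _ _)
    (by
      rintro ⟨v, e, k⟩
      apply El.ext
      · simp only [mul_v, one_v, one_e, D.act_zero']
        cases e <;> simp [sg, pr]
      · simp [mul_e, one_e]
      · simp only [mul_k, one_k]
        exact add_zero _)
    (by
      rintro ⟨v, e, k⟩
      apply El.ext
      · simp only [mul_v, inv_v, inv_e, one_v]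
        rw [← D.act_comp, add_neg_cancel, D.act_zero]
        cases e <;> simp [sg, pr]
      · simp [mul_e, inv_e, one_e]
      · simp only [mul_k, inv_k, one_k]
        exact add_neg_cancel _)

/-- the underlying data -/
def equiv (D : Dat A) : El A D ≃ A × Bool × Fin 4 where
  toFun g := (g.v, g.e, g.k)
  invFun x := ⟨x.1, x.2.1, x.2.2⟩
  left_inv _ := rfl
  right_inv _ := rfl

instance [Fintype A] : Fintype (El A D) := Fintype.ofEquiv _ (equiv D).symm

end El

/-- the abelian group `ℤ/32 × ℤ/2` -/
abbrev A64 : Type := Fin 32 × Fin 2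

def c1 (b : Fin 2) : Fin 32 := Fin.ofNat 32 (16 * b.val)
def c2 (a : Fin 32) : Fin 2 := Fin.ofNat 2 a.val

def actG (k : Fin 4) (v : A64) : A64 :=
  match k with
  | 0 => v
  | 1 => (15 * v.1 + c1 v.2, c2 v.1 + v.2)
  | 2 => (17 * v.1, v.2)
  | 3 => (31 * v.1 + c1 v.2, c2 v.1 + v.2)

def dG (k : Fin 4) : A64 :=
  match k with
  | 0 => (0, 0)
  | 1 => (1, 0)
  | 2 => (16, 1)
  | 3 => (1, 1)

lemma actG_add_aux : ∀ (k : Fin 4) (a : Fin 32) (b : Fin 2) (a' : Fin 32) (b' : Fin 2),
    actG k ((a, b) + (a', b')) = actG k (a, b) + actG k (a', b') := by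
  decide +kernel

lemma actG_comp_aux : ∀ (k l : Fin 4) (a : Fin 32) (b : Fin 2),
    actG (k + l) (a, b) = actG k (actG l (a, b)) := by
  decide +kernel

/-- the data of the group of order `512` -/
def DG : Dat A64 where
  act := actG
  d := dG
  act_add := fun k v w => actG_add_aux k v.1 v.2 w.1 w.2
  act_zero := fun v => rfl
  act_comp := fun k l v => actG_comp_aux k l v.1 v.2
  d_comp := by decide +kernel

/-- the data of the quotient of order `32` -/
def DQ : Dat (Fin 4) where
  act := fun _ v => v
  d := fun k => k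
  act_add := fun _ _ _ => rfl
  act_zero := fun _ => rfl
  act_comp := fun _ _ _ => rfl
  d_comp := fun _ _ => rfl

/-- the group of order `512` -/
abbrev G512 : Type := El A64 DG

/-- the group of order `32` -/
abbrev G32 : Type := El (Fin 4) DQ

theorem card_G512 : Nat.card G512 = 512 := by
  rw [Nat.card_congr (El.equiv DG)]
  simp

theorem card_G32 : Nat.card G32 = 32 := by
  rw [Nat.card_congr (El.equiv DQ)]
  simp

/-! ### conjugacy classes -/

def CG : ℕ := 0x4464040cc24b44640428d04b5865440cf05258654428f24e6c66842940536c66840d72538067c429925c8067c40d90589469040de25d9469042a105da86a440e3066a86a442a3262bc6b842a8067bc6b840eb267bc6b842ad270bc6b840ed06ca86a440eb267a86a442a80679469040e30669469042a32718067c42a105d8067c40de25d6c668429925c6c66840d90725865440d72535865442940534464040cf05244640428f2731c614428d04b1c61440cc24b1c61442822481c61440c20744464040cc24b44640428d04b5865440cf05258654428f2736c66842940536c66840d72538067c429925c8067c40d90729469040de25d9469042a105da86a440e3066a86a442a3271bc6b842a8067bc6b840eb267bc6b842ad270bc6b840ed06ca86a440eb267a86a442a80679469040e30669469042a32628067c42a105d8067c40de25d6c668429925c6c66840d90585865440d72535865442940534464040cf05244640428f24e1c614428d04b1c61440cc24b1c61442822481c61440c2040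
def RG : ℕ := 0x10070301408843a1504803d1dcea72381a0ce6531180b4572a948a0482391484401d0dc6a32180a04e251108034120802c1208038180a04018080200
def KG : ℕ := 0xde40215020040801019ec061f0200c08040204a1c92cc053200400e4003103d80f200300b8402e1d3804e80101b8c06e33e00ce8040268a1da231850c60400c800320d400f500300d6403d9360077e010196c06dbdf80cd804020ca1cb2dc053600400ec003302d80f600300b0402c1e3804a80101b0c06c32e00ca8040170805c22187c8604045001140e400f9003054e43fb92600bbe1f0f8ec10bbef80898020114804d2ec07fa01f0474011501dfc3a003052843ea1f3808681f0fa8c10a31e00868020178805e21187c461f045801160f47c3d003054643f991600bfe1f0f86c109bff8085802011c804f2fc07fe01f047c011700dfc3e00384a061c8103808281f8720e16830e0082802010080402018100603046001180047c010008487e1d790600c3e0387056167b0f804190e01a480612c8013300384c421390c806cf600849861c613a00cf8038718e16633a0074f0e01c880722d0013400384e8213a0d006f400084f661d593200cc8038736e165b32004c90e01ac80632d8013700384cc213b0d806cb600849061c412a00cb8038710e16432a0078f0e0fd082b42e001380000070001c0e00038000016e40539220008815002ec003b2200088000fb482a52e801fb0000054001d0e800076000108404211a00078150008c00231a003ce000fd882b62f001fc0000078001e0f0003c0000166405191200048150026c001b1200048000fbc82a72f801ff000005c001f0f800036000080402010a00038150180c06030a0000e000fe082b82000500000000000000000000000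
def CQ : ℕ := 0x1c614430d0481c614430224b1c61440ca2481c61440c2040
def RQ : ℕ := 0x3413080281208038180a04018080200
def KQ : ℕ := 0x80402010200008040100804020001008000180c0603020000000000000000000000000

/-- the code of an element of `G512` -/
def codeG (g : G512) : ℕ := ((g.v.1.val * 2 + g.v.2.val) * 2 + (cond g.e 1 0)) * 4 + g.k.val

def decG (n : ℕ) : G512 :=
  ⟨(Fin.ofNat 32 (n / 16), Fin.ofNat 2 (n / 8)), Nat.beq (n / 4 % 2) 1, Fin.ofNat 4 n⟩

def clsG (g : G512) : Fin 53 := Fin.ofNat 53 (CG / 64 ^ codeG g % 64)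

def repG (i : Fin 53) : G512 := decG (RG / 512 ^ i.val % 512)

def conG (g : G512) : G512 := decG (KG / 512 ^ codeG g % 512)

def codeQ (g : G32) : ℕ := (g.v.val * 2 + (cond g.e 1 0)) * 4 + g.k.val

def decQ (n : ℕ) : G32 :=
  ⟨Fin.ofNat 4 (n / 8), Nat.beq (n / 4 % 2) 1, Fin.ofNat 4 n⟩

def clsQ (g : G32) : Fin 14 := Fin.ofNat 14 (CQ / 64 ^ codeQ g % 64)

def repQ (i : Fin 14) : G32 := decQ (RQ / 512 ^ i.val % 512)

def conQ (g : G32) : G32 := decQ (KQ / 512 ^ codeQ g % 512)

end Pool.Agent.R677.FV
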